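import Pool.Agent.H180.Pf.Cen
import Pool.Agent.H180.Pf.Ext
import Pool.Graph.R_pool_sql_team_seeded_63374d34.N367.PPD.Conf

/-! The centres for which Desargues' theorem with a given axis does not fail often. -/

set_option autoImplicit false
set_option linter.unusedSectionVars false

namespace Pool.Agent.H180.Mo

open Configuration Configuration.ProjectivePlane Finset MulAction Pool.Agent.H634R3.PPC
  Pool.Agent.H634R3.WG Pool.Agent.TH56.TO Pool.Agent.H180.Pp Pool.Agent.H180.Pf
  Pool.Agent.N367.PPD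

section

variable {P L : Type} [Fintype P] [Fintype L] [Membership P L] [ProjectivePlane P L]

open Classical in
/-- Desargues' theorem with centre `C` and axis `a` fails only a few times for some pair -/
def Exc (a : L) (C : P) : Prop :=
  ∃ x y : P, Adm a C x y ∧ 1000 * (locSet a C x y).card ≤ order P L ^ 3

open Classical in
theorem exc_of_persp {a : L} {C : P} {g : Aut P L} (hg : g ≠ 1) (hP : Persp g C a)
    {x : P} (hxa : x ∉ a) (hxC : x ≠ C) : Adm a C x (g • x) ∧ locSet a C x (g • x) = ∅ := by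
  have hC := aut_col (P := P) (L := L)
  obtain ⟨f1, f2, f3, f4⟩ := TaskFix.taskFix (Aut P L) P L hC g C a hP hg
  have hgx : g • x ≠ x := fun h => (f1 x h).elim hxC hxa
  have hya : g • x ∉ a := by
    intro h
    have h1 : g • x ∈ g • a := by rw [f4]; exact h
    exact hxa ((hC.inc g x a).1 h1)
  have hyC : g • x ≠ C := by
    intro h
    apply hxC
    have h1 : g • x = g • C := by rw [h, f3]
    exact smul_left_cancel g h1
  have hgl : ∀ (l : L) (z : P), C ∈ l → z ∈ l → g • z ∈ l := by
    intro l z h1 h2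
    have h3 := (hC.inc g z l).2 h2
    rwa [hP.ce l h1] at h3
  refine ⟨⟨hxa, hya, hxC.symm, hyC.symm, hgx.symm, ?_⟩, ?_⟩
  · exact hgl _ _ (jn_left hxC.symm) (jn_right hxC.symm)
  · rw [Finset.eq_empty_iff_forall_notMem]
    rintro ⟨A, B⟩ ht
    obtain ⟨⟨h1, ⟨l, hl, h2⟩, h3, h4⟩, h5, h6, h7, h8, h9⟩ := mem_locSet.1 ht
    change A 0 = x at h5
    change B 0 = g • x at h6
    simp only at h1 h2 h3 h4 h7 h8 h9
    have hAB : ∀ i j, i ≠ j → A i ≠ A j ∧ B i ≠ B j := by
      intro i j hij
      constructor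
      · intro h
        apply hij
        apply hl
        exact line_eq (h1 i).1 (h2 i).2.1 (h2 i).1 (h ▸ (h2 j).2.1) (h2 j).1
      · intro h
        apply hij
        apply hl
        exact line_eq (h1 i).2.1 (h2 i).2.2 (h2 i).1 (h ▸ (h2 j).2.2) (h2 j).1
    -- the image of the triangle `A`
    have key : ∀ i, i ≠ 0 → Meet a A B 0 i → g • A i = B i := by
      intro i hi ⟨p, hpa, hpA, hpB⟩
      have hne := hAB 0 i hi.symm
      have ha := jn_left (L := L) hne.1
      have hb := jn_right (L := L) hne.1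
      have hc := jn_left (L := L) hne.2
      have hd := jn_right (L := L) hne.2
      have hp1 := hpA _ ha hb
      have hp2 := hpB _ hc hd
      have hB0p : B 0 ≠ p := by
        intro h; rw [← h, h6] at hpa; exact hya hpa
      -- the image of the side
      have e1 : g • jn L (A 0) (A i) = jn L (B 0) (B i) := by
        apply line_eq hB0p
        · rw [h6, ← h5]; exact (hC.inc g _ _).2 ha
        · have := (hC.inc g _ _).2 hp1
          rwa [hP.ax p hpa] at this
        · exact hc
        · exact hp2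
      have e2 : g • A i ∈ jn L (B 0) (B i) := by
        rw [← e1]; exact (hC.inc g _ _).2 hb
      have e3 : g • A i ∈ l i := hgl _ _ (h2 i).1 (h2 i).2.1
      have e4 : jn L (B 0) (B i) ≠ l i := by
        intro h
        apply hi.symm
        apply hl
        exact line_eq (h1 0).2.1 (h2 0).2.2 (h2 0).1 (h ▸ hc) (h2 i).1
      exact pt_eq e4 e2 hd e3 (h2 i).2.2
    have k1 := key 1 (by decide) h7
    have k2 := key 2 (by decide) h8
    apply h9
    have hne := hAB 1 2 (by decide)
    by_cases hla : jn L (A 1) (A 2) = a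
    · have hA1 : A 1 ∈ a := hla ▸ jn_left hne.1
      have := hP.ax _ hA1
      rw [k1] at this
      exact absurd this.symm (h1 1).2.2
    · refine ⟨mt P (jn L (A 1) (A 2)) a, mt_right hla, ?_, ?_⟩
      · intro k hk1 hk2
        rw [eq_jn hne.1 hk1 hk2]
        exact mt_left hla
      · intro k hk1 hk2
        have h10 : mt P (jn L (A 1) (A 2)) a ∈ jn L (A 1) (A 2) := mt_left hla
        have h11 := (hC.inc g _ _).2 h10
        rw [hP.ax _ (mt_right hla)] at h11
        have h12 : g • jn L (A 1) (A 2) = k := by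
          apply line_eq hne.2 _ _ hk1 hk2
          · rw [← k1]; exact (hC.inc g _ _).2 (jn_left hne.1)
          · rw [← k2]; exact (hC.inc g _ _).2 (jn_right hne.1)
        rwa [h12] at h11

/-- a point off a line, different from a given point -/
theorem exists_off (a : L) (C : P) : ∃ x : P, x ∉ a ∧ x ≠ C := by
  by_cases hCa : C ∈ a
  · obtain ⟨q, hq⟩ := Nondegenerate.exists_point (P := P) a
    exact ⟨q, hq, fun h => hq (h ▸ hCa)⟩
  · obtain ⟨z, hz⟩ := exists_pt (P := P) a
    have hCz : C ≠ z := by rintro rfl; exact hCa hz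
    obtain ⟨x, hx, hx1, hx2⟩ := exists_ne_ne (P := P) (jn L C z) C z
    refine ⟨x, fun h => hx2 ?_, hx1⟩
    have hne : jn L C z ≠ a := fun h => hCa (h ▸ jn_left hCz)
    exact pt_eq hne hx (jn_right hCz) h hz

theorem exc_iff (hn : 3 ≤ order P L) (a : L) (C : P) :
    Exc a C ↔ ∃ g : Aut P L, g ≠ 1 ∧ Persp g C a := by
  constructor
  · rintro ⟨x, y, hadm, hle⟩
    rcases gap hn hadm with ⟨g, hg, hgx⟩ | h4
    · refine ⟨⟨g, hg.1.1⟩, fun e => hadm.xy ?_, ⟨hg.1.2, hg.2⟩⟩
      have h5 : g = 1 := congrArg Subtype.val e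
      rw [← hgx, h5]; rfl
    · exact absurd h4 (not_lt.2 hle)
  · rintro ⟨g, hg, hP⟩
    obtain ⟨x, hx1, hx2⟩ := exists_off a C
    obtain ⟨h1, h2⟩ := exc_of_persp hg hP hx1 hx2
    exact ⟨x, g • x, h1, by rw [h2]; simp⟩

end

section

variable {G P L : Type} [Group G] [Finite G] [Fintype P] [Fintype L] [Membership P L]
  [ProjectivePlane P L] [MulAction G P] [MulAction G L]

/-- the number of the centres off the axis is zero or divides the order -/
theorem off_card (hC : Col G P L) (hpp : ¬ IsPrimePow (order P L)) (a : L) :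
    {C : P | C ∉ a ∧ ∃ g : G, g ≠ 1 ∧ Persp g C a} = ∅ ∨
      {C : P | C ∉ a ∧ ∃ g : G, g ≠ 1 ∧ Persp g C a}.ncard ∣ order P L := by
  obtain ⟨c₀, h₀⟩ := exists_pt (P := P) a
  set H := HA (P := P) G a with hH
  have hCH := col_sub hC H
  have hle := cen_le hCH (HA_ax a) h₀
  have hset : {C : P | C ∉ a ∧ ∃ g : G, g ≠ 1 ∧ Persp g C a} =
      ((Cen H a (HA_ax a) : SubMulAction H P) : Set P) := by
    ext z
    constructor
    · rintro ⟨hz, g, hg, hP⟩
      refine ⟨hz, ⟨g, hP.ax⟩, fun e => hg (congrArg Subtype.val e), ?_⟩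
      exact (TaskFix.taskFix G P L hC g z a hP hg).2.2.1
    · rintro ⟨hz, g, hg1, hgz⟩
      refine ⟨hz, ?_⟩
      obtain ⟨c, hc⟩ := TaskAxis.taskAxis G P L hC g.1 a g.2
      have hg1' : g.1 ≠ 1 := fun h => hg1 (Subtype.ext h)
      obtain ⟨f1, -, -, -⟩ := TaskFix.taskFix G P L hC g.1 c a hc hg1'
      have : z = c := (f1 z hgz).resolve_right hz
      exact ⟨g.1, hg1', this ▸ hc⟩
  by_cases hemp : {C : P | C ∉ a ∧ ∃ g : G, g ≠ 1 ∧ Persp g C a} = ∅
  · exact Or.inl hemp
  right
  have hdvd := card_EA_dvd hC hpp h₀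
  rw [← card_EA_sub hC h₀] at hdvd
  rw [hset, ← Nat.card_coe_set_eq]
  change Nat.card (Cen H a (HA_ax a)) ∣ _
  obtain ⟨z, hz⟩ := Set.nonempty_iff_ne_empty.2 hemp
  rw [hset] at hz
  have hge : Nat.card (EA hCH a c₀ h₀) ≤ Nat.card (Cen H a (HA_ax a)) := by
    refine Nat.card_le_card_of_injective
      (fun g => (g.1 • ⟨z, hz⟩ : Cen H a (HA_ax a))) ?_
    intro g h hgh
    have h1 : g.1 • z = h.1 • z := congrArg Subtype.val hgh
    have h2 : (h.1⁻¹ * g.1) • z = z := by rw [mul_smul, h1, inv_smul_smul]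
    obtain ⟨c, hc, hP⟩ := (mem_EA hCH).1 ((EA hCH a c₀ h₀).mul_mem
      ((EA hCH a c₀ h₀).inv_mem h.2) g.2)
    have h3 := TaskCount.fix_mem TaskFix.taskFix hCH hc hP hz.1 h2
    exact Subtype.ext (inv_mul_eq_one.1 h3).symm
  rw [le_antisymm hle hge]
  exact hdvd

/-- the number of the centres on the axis -/
theorem on_card (hC : Col G P L) (hpp : ¬ IsPrimePow (order P L)) (a : L) :
    2 * {C : P | C ∈ a ∧ ∃ g : G, g ≠ 1 ∧ Persp g C a}.ncard + 2 ≤ order P L := by
  obtain ⟨c₀, h₀⟩ := exists_pt (P := P) a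
  have hn6 : 6 ≤ order P L := by
    have := one_lt_order P L
    by_contra hcon
    push Not at hcon
    have : order P L = 2 ∨ order P L = 3 ∨ order P L = 4 ∨ order P L = 5 := by omega
    rcases this with e | e | e | e <;> rw [e] at hpp
    · exact hpp Nat.prime_two.isPrimePow
    · exact hpp Nat.prime_three.isPrimePow
    · exact hpp ((isPrimePow_nat_iff _).2 ⟨2, 2, Nat.prime_two, by norm_num, by norm_num⟩)
    · exact hpp Nat.prime_five.isPrimePow
  have hdvd := card_EA_dvd hC hpp h₀
  have hex : ∀ C : {C : P | C ∈ a ∧ ∃ g : G, g ≠ 1 ∧ Persp g C a},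
      ∃ g : G, g ≠ 1 ∧ Persp g C.1 a := fun C => C.2.2
  choose g hg1 hg2 using hex
  have hcu : ∀ (h : G) (c d : P), c ∈ a → d ∈ a → h ≠ 1 → Persp h c a → Persp h d a → c = d := by
    intro h c d hc hd hh h1 h2
    by_contra hcd
    obtain ⟨x, hx1, hx2⟩ := exists_off a c
    have hxd : x ≠ d := fun e => hx1 (e ▸ hd)
    obtain ⟨f1, -, -, -⟩ := TaskFix.taskFix G P L hC h c a h1 hh
    have e1 : h • x ∈ jn L x c := by
      have := (hC.inc h x (jn L x c)).2 (jn_left hx2)
      rwa [h1.ce _ (jn_right hx2)] at this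
    have e2 : h • x ∈ jn L x d := by
      have := (hC.inc h x (jn L x d)).2 (jn_left hxd)
      rwa [h2.ce _ (jn_right hxd)] at this
    have e3 : jn L x c ≠ jn L x d := by
      intro e
      apply hx1
      have : jn L x c = a := line_eq hcd (jn_right hx2) (e ▸ jn_right hxd) hc hd
      exact this ▸ jn_left hx2
    have := pt_eq e3 e1 (jn_left hx2) e2 (jn_left hxd)
    exact (f1 x this).elim hx2 hx1
  rcases ela_cases hC h₀ with ⟨c, hc, h1⟩ | ⟨q, k, hq, hk⟩
  · have : {C : P | C ∈ a ∧ ∃ g : G, g ≠ 1 ∧ Persp g C a} ⊆ {c} := by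
      rintro z ⟨hz, g, hg, hP⟩
      exact hcu g z c hz hc hg hP (h1 g ((mem_EA hC).2 ⟨z, hz, hP⟩))
    have := Set.ncard_le_ncard this (Set.toFinite _)
    rw [Set.ncard_singleton] at this
    omega
  · rw [hk] at hdvd
    have hne : q ^ k ≠ order P L := by
      intro e
      apply hpp
      rw [← e]
      apply hq.isPrimePow.pow
      rintro rfl
      rw [pow_zero] at e
      omega
    obtain ⟨m, hm⟩ := hdvd
    have hm2 : 2 ≤ m := by
      rcases Nat.lt_or_ge m 2 with h | h
      · interval_cases m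
        · omega
        · omega
      · exact h
    have hcard : {C : P | C ∈ a ∧ ∃ g : G, g ≠ 1 ∧ Persp g C a}.ncard + 1 ≤ q ^ k := by
      rw [← hk, ← Nat.card_coe_set_eq]
      have : Nat.card (Option {C : P | C ∈ a ∧ ∃ g : G, g ≠ 1 ∧ Persp g C a}) ≤
          Nat.card (EA hC a c₀ h₀) := by
        refine Nat.card_le_card_of_injective (fun C => match C with
          | none => 1
          | some C => ⟨g C, (mem_EA hC).2 ⟨C.1, C.2.1, hg2 C⟩⟩) ?_
        intro C D hCD
        match C, D with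
        | none, none => rfl
        | none, some D => exact absurd (congrArg Subtype.val hCD).symm (hg1 D)
        | some C, none => exact absurd (congrArg Subtype.val hCD) (hg1 C)
        | some C, some D =>
          have h1 : g C = g D := congrArg Subtype.val hCD
          have h2 := hg2 D
          rw [← h1] at h2
          rw [Subtype.ext (hcu _ _ _ C.2.1 D.2.1 (hg1 C) (hg2 C) h2)]
      rw [Finite.card_option] at this
      exact this
    nlinarith

end

section

variable {P L : Type} [Fintype P] [Fintype L] [Membership P L] [ProjectivePlane P L]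

/-- the number of the exceptional centres off the axis is zero or divides the order -/
theorem exc_off (hpp : ¬ IsPrimePow (order P L)) (hn : 3 ≤ order P L) (a : L) :
    {C : P | C ∉ a ∧ Exc a C} = ∅ ∨ {C : P | C ∉ a ∧ Exc a C}.ncard ∣ order P L := by
  have h := off_card (aut_col (P := P) (L := L)) hpp a
  simp only [exc_iff hn]
  exact h

/-- the number of the exceptional centres on the axis -/
theorem exc_on (hpp : ¬ IsPrimePow (order P L)) (hn : 3 ≤ order P L) (a : L) :
    2 * {C : P | C ∈ a ∧ Exc a C}.ncard + 2 ≤ order P L := by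
  have h := on_card (aut_col (P := P) (L := L)) hpp a
  simp only [exc_iff hn]
  exact h

/-- the number of the exceptional axes off the centre is zero or divides the order -/
theorem exc_off' (hpp : ¬ IsPrimePow (order P L)) (hn : 3 ≤ order P L) (C : P) :
    {a : L | C ∉ a ∧ Exc a C} = ∅ ∨ {a : L | C ∉ a ∧ Exc a C}.ncard ∣ order P L := by
  have hpp' : ¬ IsPrimePow (order (Dual L) (Dual P)) := by
    rw [ProjectivePlane.Dual.order]; exact hpp
  have h := off_card (P := Dual L) (L := Dual P) (col_dual (aut_col (P := P) (L := L))) hpp' C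
  rw [ProjectivePlane.Dual.order] at h
  simp only [exc_iff hn]
  have hset : {a : L | C ∉ a ∧ ∃ g : Aut P L, g ≠ 1 ∧ Persp g C a} =
      {a : Dual L | ¬ (@Membership.mem (Dual L) (Dual P) _ C a) ∧ ∃ g : Aut P L, g ≠ 1 ∧
        Persp (P := Dual L) (L := Dual P) g a C} := by
    ext a
    constructor
    · rintro ⟨h1, g, hg, hP⟩
      exact ⟨h1, g, hg, ⟨hP.ce, hP.ax⟩⟩
    · rintro ⟨h1, g, hg, hP⟩
      exact ⟨h1, g, hg, ⟨hP.ce, hP.ax⟩⟩
  rw [hset]
  exact h

/-- the number of the exceptional axes through the centre -/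
theorem exc_on' (hpp : ¬ IsPrimePow (order P L)) (hn : 3 ≤ order P L) (C : P) :
    2 * {a : L | C ∈ a ∧ Exc a C}.ncard + 2 ≤ order P L := by
  have hpp' : ¬ IsPrimePow (order (Dual L) (Dual P)) := by
    rw [ProjectivePlane.Dual.order]; exact hpp
  have h := on_card (P := Dual L) (L := Dual P) (col_dual (aut_col (P := P) (L := L))) hpp' C
  rw [ProjectivePlane.Dual.order] at h
  simp only [exc_iff hn]
  have hset : {a : L | C ∈ a ∧ ∃ g : Aut P L, g ≠ 1 ∧ Persp g C a} =
      {a : Dual L | (@Membership.mem (Dual L) (Dual P) _ C a) ∧ ∃ g : Aut P L, g ≠ 1 ∧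
        Persp (P := Dual L) (L := Dual P) g a C} := by
    ext a
    constructor
    · rintro ⟨h1, g, hg, hP⟩
      exact ⟨h1, g, hg, ⟨hP.ce, hP.ax⟩⟩
    · rintro ⟨h1, g, hg, hP⟩
      exact ⟨h1, g, hg, ⟨hP.ce, hP.ax⟩⟩
  rw [hset]
  exact h

end

end Pool.Agent.H180.Mo
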