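import Pool.Agent.H180.Mo.Net
import Pool.Agent.H180.Mo.Bad

/-! Failures of Desargues' theorem at the line at infinity in terms of the net. -/

set_option autoImplicit false
set_option linter.unusedSectionVars false

namespace Pool.Agent.H180.Mo

open Configuration Configuration.ProjectivePlane Finset Pool.Agent.N367.PPD

section

variable {P L : Type} [Fintype P] [Membership P L] [ProjectivePlane P L]

open Classical in
theorem loc_off {a : L} {C x y : P} (hx : x ∉ a) (hy : y ∉ a) {A B : Fin 3 → P}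
    (ht : (A, B) ∈ locSet a C x y) : ∀ i, A i ∉ a ∧ B i ∉ a := by
  obtain ⟨⟨h1, ⟨l, hl, h2⟩, h3, h4⟩, h5, h6, h7, h8, h9⟩ := mem_locSet.1 ht
  change A 0 = x at h5
  change B 0 = y at h6
  simp only at h1 h2 h3 h4 h7 h8 h9
  have hne : ∀ i j, i ≠ j → A i ≠ A j ∧ B i ≠ B j := by
    intro i j hij
    constructor
    · intro h
      apply hij
      apply hl
      exact line_eq (h1 i).1 (h2 i).2.1 (h2 i).1 (h ▸ (h2 j).2.1) (h2 j).1
    · intro h
      apply hij
      apply hl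
      exact line_eq (h1 i).2.1 (h2 i).2.2 (h2 i).1 (h ▸ (h2 j).2.2) (h2 j).1
  have key : ∀ i, i ≠ 0 → Meet a A B 0 i → A i ∉ a ∧ B i ∉ a := by
    intro i hi ⟨p, hpa, hpA, hpB⟩
    have hA := hne 0 i hi.symm
    have p1 := hpA _ (jn_left hA.1) (jn_right hA.1)
    have p2 := hpB _ (jn_left hA.2) (jn_right hA.2)
    have nA : jn L (A 0) (A i) ≠ a := fun e => hx (h5 ▸ e ▸ jn_left hA.1)
    have nB : jn L (B 0) (B i) ≠ a := fun e => hy (h6 ▸ e ▸ jn_left hA.2)
    have n1 : B 0 ∉ l i := fun e =>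
      hi.symm (hl (line_eq (h1 0).2.1 (h2 0).2.2 (h2 0).1 e (h2 i).1))
    have n2 : A 0 ∉ l i := fun e =>
      hi.symm (hl (line_eq (h1 0).1 (h2 0).2.1 (h2 0).1 e (h2 i).1))
    constructor
    · intro h
      have e1 : p = A i := pt_eq nA p1 (jn_right hA.1) hpa h
      rw [e1] at p2
      apply n1
      rw [line_eq (h1 i).2.2 (h2 i).2.1 (h2 i).2.2 p2 (jn_right hA.2)]
      exact jn_left hA.2
    · intro h
      have e1 : p = B i := pt_eq nB p2 (jn_right hA.2) hpa h
      rw [e1] at p1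
      apply n2
      rw [line_eq (h1 i).2.2 (h2 i).2.1 (h2 i).2.2 (jn_right hA.1) p1]
      exact jn_left hA.1
  intro i
  fin_cases i
  · exact ⟨h5 ▸ hx, h6 ▸ hy⟩
  · exact key 1 (by decide) h7
  · exact key 2 (by decide) h8

end

section

variable {K X V : Type} {f : K → X → V}

/-- the cells `x`, `y` and the cells `x'`, `y'` have the same value in a common direction -/
def Par (f : K → X → V) (x y x' y' : X) : Prop := ∃ d, f d x = f d y ∧ f d x' = f d y'

/-- the cells `x`, `y` are aligned with the centre `z` -/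
def Aligned (f : K → X → V) (z : X ⊕ K) (x y : X) : Prop :=
  match z with
  | .inl o => ∃ d, f d o = f d x ∧ f d o = f d y
  | .inr d => f d x = f d y

/-- the cell `x` is not the centre -/
def Off (_ : K → X → V) (z : X ⊕ K) (x : X) : Prop :=
  match z with
  | .inl o => x ≠ o
  | .inr _ => True

open Classical in
/-- the failures -/
noncomputable def Fails [Fintype X] (f : K → X → V) (z : X ⊕ K) (b c : X) :
    Finset (X × X × X × X) :=
  univ.filter fun t => match t with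
    | (x, x', y, y') => (Off f z x ∧ Off f z x' ∧ Off f z y ∧ Off f z y') ∧ (x ≠ x' ∧ y ≠ y') ∧
      (Aligned f z x x' ∧ Aligned f z y y') ∧
      (¬ Aligned f z b x ∧ ¬ Aligned f z b y ∧ ¬ Aligned f z x y) ∧
      Par f b x c x' ∧ Par f b y c y' ∧ ¬ Par f x y x' y'

/-- exceptional centres -/
def Exceptional [Fintype X] (f : K → X → V) (n : ℕ) (z : X ⊕ K) : Prop :=
  ∃ b c : X, Off f z b ∧ Off f z c ∧ b ≠ c ∧ Aligned f z b c ∧ 1000 * (Fails f z b c).card ≤ n ^ 3

/-- the centre as a point -/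
def toPt (z : X ⊕ K) : Pt f := (ptEquiv f).symm z

lemma off_iff (z : X ⊕ K) (x : X) : Off f z x ↔ (Pt.cell x : Pt f) ≠ toPt z := by
  cases z with
  | inl o =>
    show x ≠ o ↔ (Pt.cell x : Pt f) ≠ Pt.cell o
    simp
  | inr d =>
    show True ↔ (Pt.cell x : Pt f) ≠ Pt.dir d
    simp

lemma aligned_iff (z : X ⊕ K) (x y : X) : Aligned f z x y ↔
    ∃ l : Ln f, toPt z ∈ l ∧ Pt.cell x ∈ l ∧ Pt.cell y ∈ l := by
  cases z with
  | inl o =>
    constructor
    · rintro ⟨d, h1, h2⟩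
      exact ⟨.aff d (f d o), by show f d o = f d o; rfl, h1.symm, h2.symm⟩
    · rintro ⟨l, h1, h2, h3⟩
      cases l with
      | aff d v =>
        change f d o = v at h1
        rw [cell_aff] at h2 h3
        exact ⟨d, h1.trans h2.symm, h1.trans h3.symm⟩
      | inf => simp at h2
  | inr d =>
    constructor
    · intro h
      exact ⟨.aff d (f d x), by show d = d; rfl, rfl, h.symm⟩
    · rintro ⟨l, h1, h2, h3⟩
      cases l with
      | aff e v =>
        change d = e at h1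
        subst h1
        rw [cell_aff] at h2 h3
        exact h2.trans h3.symm
      | inf => simp at h2

lemma par_of_meet (H : IsNet f) {A B : Fin 3 → Pt f} {i j : Fin 3} {x y x' y' : X}
    (h1 : A i = .cell x) (h2 : A j = .cell y) (h3 : B i = .cell x') (h4 : B j = .cell y')
    (hxy : x ≠ y) (hxy' : x' ≠ y') (hM : Meet (Ln.inf : Ln f) A B i j) : Par f x y x' y' := by
  obtain ⟨p, hp, hpA, hpB⟩ := hM
  cases p with
  | cell z => simp at hp
  | dir d =>
    obtain ⟨e, he⟩ := H.line x y hxy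
    obtain ⟨e', he'⟩ := H.line x' y' hxy'
    have k1 := hpA (.aff e (f e x)) (by rw [h1]; simp) (by rw [h2]; simpa using he.symm)
    have k2 := hpB (.aff e' (f e' x')) (by rw [h3]; simp) (by rw [h4]; simpa using he'.symm)
    rw [dir_aff] at k1 k2
    exact ⟨d, by rw [k1]; exact he, by rw [k2]; exact he'⟩

lemma meet_of_par (H : IsNet f) {A B : Fin 3 → Pt f} {i j : Fin 3} {x y x' y' : X}
    (h1 : A i = .cell x) (h2 : A j = .cell y) (h3 : B i = .cell x') (h4 : B j = .cell y')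
    (hxy : x ≠ y) (hxy' : x' ≠ y') (hP : Par f x y x' y') : Meet (Ln.inf : Ln f) A B i j := by
  obtain ⟨d, hd, hd'⟩ := hP
  refine ⟨.dir d, by simp, ?_, ?_⟩
  · intro l k1 k2
    rw [h1] at k1
    rw [h2] at k2
    cases l with
    | aff e v =>
      rw [cell_aff] at k1 k2
      rw [dir_aff]
      by_contra hde
      exact hxy (H.inj d e hde x y hd (k1.trans k2.symm))
    | inf => simp at k1
  · intro l k1 k2
    rw [h3] at k1
    rw [h4] at k2
    cases l with
    | aff e v =>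
      rw [cell_aff] at k1 k2
      rw [dir_aff]
      by_contra hde
      exact hxy' (H.inj d e hde x' y' hd' (k1.trans k2.symm))
    | inf => simp at k1

lemma exists_cell {p : Pt f} (h : p ∉ (Ln.inf : Ln f)) : ∃ x, p = .cell x := by
  cases p with
  | cell x => exact ⟨x, rfl⟩
  | dir d => simp at h

open Classical in
theorem loc_le [Fintype K] [Fintype X] (H : IsNet f) (z : X ⊕ K) {b c : X} :
    let _ := plane H
    (locSet (Ln.inf : Ln f) (toPt z) (Pt.cell b) (Pt.cell c)).card ≤ (Fails f z b c).card := by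
  let _ := plane H
  let ψ : X × X × X × X → (Fin 3 → Pt f) × (Fin 3 → Pt f) := fun t =>
    (![.cell b, .cell t.1, .cell t.2.2.1], ![.cell c, .cell t.2.1, .cell t.2.2.2])
  refine le_trans (card_le_card ?_) (card_image_le (f := ψ))
  rintro ⟨A, B⟩ ht
  have hoff := loc_off (by simp) (by simp) ht
  obtain ⟨⟨h1, ⟨l, hl, h2⟩, h3, h4⟩, h5, h6, h7, h8, h9⟩ := mem_locSet.1 ht
  change A 0 = _ at h5
  change B 0 = _ at h6
  simp only at h1 h2 h3 h4 h7 h8 h9
  obtain ⟨x, hx⟩ := exists_cell (hoff 1).1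
  obtain ⟨x', hx'⟩ := exists_cell (hoff 1).2
  obtain ⟨y, hy⟩ := exists_cell (hoff 2).1
  obtain ⟨y', hy'⟩ := exists_cell (hoff 2).2
  have hne : ∀ i j, i ≠ j → A i ≠ A j ∧ B i ≠ B j := by
    intro i j hij
    constructor
    · intro h
      apply hij
      apply hl
      exact line_eq (h1 i).1 (h2 i).2.1 (h2 i).1 (h ▸ (h2 j).2.1) (h2 j).1
    · intro h
      apply hij
      apply hl
      exact line_eq (h1 i).2.1 (h2 i).2.2 (h2 i).1 (h ▸ (h2 j).2.2) (h2 j).1
  have hna : ∀ i j, i ≠ j → ¬ ∃ m : Ln f, toPt z ∈ m ∧ A i ∈ m ∧ A j ∈ m := by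
    rintro i j hij ⟨m, m1, m2, m3⟩
    apply hij
    apply hl
    rw [line_eq (h1 i).1 (h2 i).2.1 (h2 i).1 m2 m1, line_eq (h1 j).1 (h2 j).2.1 (h2 j).1 m3 m1]
  have e01 := hne 0 1 (by decide)
  have e02 := hne 0 2 (by decide)
  have e12 := hne 1 2 (by decide)
  have n01 := hna 0 1 (by decide)
  have n02 := hna 0 2 (by decide)
  have n12 := hna 1 2 (by decide)
  have o1 := h1 1
  have o2 := h1 2
  have q1 := h2 1
  have q2 := h2 2
  rw [h5, h6, hx, hx'] at e01
  rw [h5, h6, hy, hy'] at e02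
  rw [hx, hx', hy, hy'] at e12
  rw [h5, hx] at n01
  rw [h5, hy] at n02
  rw [hx, hy] at n12
  rw [hx, hx'] at o1 q1
  rw [hy, hy'] at o2 q2
  have cinj : ∀ u v : X, (Pt.cell u : Pt f) ≠ Pt.cell v → u ≠ v := fun u v h e => h (e ▸ rfl)
  rw [mem_image]
  refine ⟨(x, x', y, y'), ?_, ?_⟩
  · unfold Fails
    rw [mem_filter]
    refine ⟨mem_univ _, ⟨(off_iff z x).2 o1.1, (off_iff z x').2 o1.2.1, (off_iff z y).2 o2.1,
      (off_iff z y').2 o2.2.1⟩, ⟨cinj _ _ o1.2.2, cinj _ _ o2.2.2⟩,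
      ⟨(aligned_iff z x x').2 ⟨_, q1⟩, (aligned_iff z y y').2 ⟨_, q2⟩⟩,
      ⟨fun h => n01 ((aligned_iff z b x).1 h), fun h => n02 ((aligned_iff z b y).1 h),
        fun h => n12 ((aligned_iff z x y).1 h)⟩, ?_, ?_, ?_⟩
    · exact par_of_meet H h5 hx h6 hx' (cinj _ _ e01.1) (cinj _ _ e01.2) h7
    · exact par_of_meet H h5 hy h6 hy' (cinj _ _ e02.1) (cinj _ _ e02.2) h8
    · intro hP
      exact h9 (meet_of_par H hx hy hx' hy' (cinj _ _ e12.1) (cinj _ _ e12.2) hP)
  · apply Prod.ext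
    · funext i
      fin_cases i
      · exact h5.symm
      · exact hx.symm
      · exact hy.symm
    · funext i
      fin_cases i
      · exact h6.symm
      · exact hx'.symm
      · exact hy'.symm

open Classical in
theorem loc_mem [Fintype K] [Fintype X] (H : IsNet f) (z : X ⊕ K) {b c x x' y y' : X}
    (hb : Off f z b) (hc : Off f z c) (hbc : b ≠ c) (hal : Aligned f z b c)
    (ht : (x, x', y, y') ∈ Fails f z b c) :
    let _ := plane H
    ((![.cell b, .cell x, .cell y], ![.cell c, .cell x', .cell y']) :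
      (Fin 3 → Pt f) × (Fin 3 → Pt f)) ∈
      locSet (Ln.inf : Ln f) (toPt z) (Pt.cell b) (Pt.cell c) := by
  let _ := plane H
  unfold Fails at ht
  rw [mem_filter] at ht
  obtain ⟨-, ⟨o1, o2, o3, o4⟩, ⟨d1, d2⟩, ⟨a1, a2⟩, ⟨n1, n2, n3⟩, p1, p2, p3⟩ := ht
  rw [off_iff] at hb hc o1 o2 o3 o4
  obtain ⟨l₀, l01, l02, l03⟩ := (aligned_iff z b c).1 hal
  obtain ⟨l₁, l11, l12, l13⟩ := (aligned_iff z x x').1 a1
  obtain ⟨l₂, l21, l22, l23⟩ := (aligned_iff z y y').1 a2
  have k01 : l₀ ≠ l₁ := fun e => n1 ((aligned_iff z b x).2 ⟨l₀, l01, l02, e ▸ l12⟩)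
  have k02 : l₀ ≠ l₂ := fun e => n2 ((aligned_iff z b y).2 ⟨l₀, l01, l02, e ▸ l22⟩)
  have k12 : l₁ ≠ l₂ := fun e => n3 ((aligned_iff z x y).2 ⟨l₁, l11, l12, e ▸ l22⟩)
  have cinj : ∀ u v : X, u ≠ v → (Pt.cell u : Pt f) ≠ Pt.cell v := fun u v h e =>
    h (by injection e)
  have ne : ∀ (u v : X) (k m : Ln f), (Pt.cell u : Pt f) ≠ toPt z → toPt z ∈ k → toPt z ∈ m →
      .cell u ∈ k → .cell v ∈ m → k ≠ m → u ≠ v := by
    intro u v k m h1 h2 h3 h4 h5 h6 h7
    subst h7
    exact h6 (line_eq h1 h4 h2 h5 h3)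
  have bx := ne b x _ _ hb l01 l11 l02 l12 k01
  have byy := ne b y _ _ hb l01 l21 l02 l22 k02
  have xy := ne x y _ _ o1 l11 l21 l12 l22 k12
  have cx := ne c x' _ _ hc l01 l11 l03 l13 k01
  have cy := ne c y' _ _ hc l01 l21 l03 l23 k02
  have xy' := ne x' y' _ _ o2 l11 l21 l13 l23 k12
  rw [mem_locSet]
  refine ⟨⟨?_, ⟨![l₀, l₁, l₂], ?_, ?_⟩, ?_, ?_⟩, rfl, rfl, ?_, ?_, ?_⟩
  · intro i
    fin_cases i
    · exact ⟨hb, hc, cinj _ _ hbc⟩
    · exact ⟨o1, o2, cinj _ _ d1⟩
    · exact ⟨o3, o4, cinj _ _ d2⟩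
  · intro i j hij
    fin_cases i <;> fin_cases j
    · rfl
    · exact absurd hij k01
    · exact absurd hij k02
    · exact absurd hij k01.symm
    · rfl
    · exact absurd hij k12
    · exact absurd hij k02.symm
    · exact absurd hij k12.symm
    · rfl
  · intro i
    fin_cases i
    · exact ⟨l01, l02, l03⟩
    · exact ⟨l11, l12, l13⟩
    · exact ⟨l21, l22, l23⟩
  · rintro ⟨m, hm⟩
    have m0 : (Pt.cell b : Pt f) ∈ m := hm 0
    have m1 : (Pt.cell x : Pt f) ∈ m := hm 1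
    have m2 : (Pt.cell y : Pt f) ∈ m := hm 2
    cases m with
    | inf => simp at m0
    | aff e v =>
      rw [cell_aff] at m0 m1 m2
      obtain ⟨d, hd, hd'⟩ := p1
      obtain ⟨g, hg, hg'⟩ := p2
      have e1 : d = e := by
        by_contra h; exact bx (H.inj d e h b x hd (m0.trans m1.symm))
      have e2 : g = e := by
        by_contra h; exact byy (H.inj g e h b y hg (m0.trans m2.symm))
      rw [e1] at hd'
      rw [e2] at hg'
      exact p3 ⟨e, m1.trans m2.symm, hd'.symm.trans hg'⟩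
  · rintro ⟨m, hm⟩
    have m0 : (Pt.cell c : Pt f) ∈ m := hm 0
    have m1 : (Pt.cell x' : Pt f) ∈ m := hm 1
    have m2 : (Pt.cell y' : Pt f) ∈ m := hm 2
    cases m with
    | inf => simp at m0
    | aff e v =>
      rw [cell_aff] at m0 m1 m2
      obtain ⟨d, hd, hd'⟩ := p1
      obtain ⟨g, hg, hg'⟩ := p2
      have e1 : d = e := by
        by_contra h; exact cx (H.inj d e h c x' hd' (m0.trans m1.symm))
      have e2 : g = e := by
        by_contra h; exact cy (H.inj g e h c y' hg' (m0.trans m2.symm))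
      rw [e1] at hd
      rw [e2] at hg
      exact p3 ⟨e, hd.symm.trans hg, m1.trans m2.symm⟩
  · exact meet_of_par H rfl rfl rfl rfl bx cx p1
  · exact meet_of_par H rfl rfl rfl rfl byy cy p2
  · intro hM
    exact p3 (par_of_meet H rfl rfl rfl rfl xy xy' hM)

theorem exc_of_exceptional [Fintype K] [Fintype X] [Fintype V] (H : IsNet f) {n : ℕ} (z : X ⊕ K)
    (hn : let _ := plane H; order (Pt f) (Ln f) = n) (h : Exceptional f n z) :
    let _ := plane H
    Exc (Ln.inf : Ln f) (toPt z) := by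
  let _ := plane H
  obtain ⟨b, c, hb, hc, hbc, hal, hle⟩ := h
  rw [off_iff] at hb hc
  refine ⟨.cell b, .cell c, ⟨by simp, by simp, hb.symm, hc.symm, ?_, ?_⟩, ?_⟩
  · intro e; exact hbc (by injection e)
  · obtain ⟨l, l1, l2, l3⟩ := (aligned_iff z b c).1 hal
    rw [← eq_jn hb.symm l1 l2]
    exact l3
  · have h1 := loc_le H z (b := b) (c := c)
    have h2 : order (Pt f) (Ln f) = n := hn
    rw [h2]
    refine le_trans (Nat.mul_le_mul_left _ ?_) hle
    convert h1

/-- if the centre is exceptional, there are pairs without any failure -/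
theorem closed_of_exc [Fintype K] [Fintype X] [Fintype V] (H : IsNet f) {n : ℕ} (z : X ⊕ K)
    (hn : let _ := plane H; order (Pt f) (Ln f) = n) (h3 : 3 ≤ n)
    (h : let _ := plane H; Exc (Ln.inf : Ln f) (toPt z)) (b : X) (hb : Off f z b) :
    ∃ c, Off f z c ∧ b ≠ c ∧ Aligned f z b c ∧ Fails f z b c = ∅ := by
  let _ := plane H
  have h2 : order (Pt f) (Ln f) = n := hn
  obtain ⟨g, hg, hP⟩ := (exc_iff (by rw [h2]; exact h3) (Ln.inf : Ln f) (toPt z)).1 h
  have hb' := (off_iff z b).1 hb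
  obtain ⟨k1, k2⟩ := exc_of_persp hg hP (x := .cell b) (by simp) hb'
  obtain ⟨c, hc⟩ := exists_cell k1.ya
  rw [hc] at k1 k2
  have hcz : Off f z c := (off_iff z c).2 k1.yC.symm
  have hbc : b ≠ c := fun e => k1.xy (e ▸ rfl)
  have hal : Aligned f z b c := (aligned_iff z b c).2
    ⟨_, jn_left k1.xC, jn_right k1.xC, k1.col⟩
  refine ⟨c, hcz, hbc, hal, ?_⟩
  rw [Finset.eq_empty_iff_forall_notMem]
  rintro ⟨x, x', y, y'⟩ ht
  have h4 := loc_mem H z hb hcz hbc hal ht
  have h5 : locSet (Ln.inf : Ln f) (toPt z) (Pt.cell b) (Pt.cell c) = ∅ := by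
    convert k2
  rw [Finset.eq_empty_iff_forall_notMem] at h5
  apply h5
  convert h4

end

section

variable {K X V : Type} [Fintype K] [Fintype X] [Fintype V] {f : K → X → V}

/-- **Main theorem** for nets. -/
theorem main (H : IsNet f) {n : ℕ} (hX : Fintype.card X = n ^ 2) (hK : Fintype.card K = n + 1)
    (hpp : ¬ IsPrimePow n) (h3 : 3 ≤ n) :
    ({o : X | Exceptional f n (.inl o)}.ncard = 0 ∨ {o : X | Exceptional f n (.inl o)}.ncard ∣ n) ∧
    2 * {d : K | Exceptional f n (.inr d)}.ncard + 2 ≤ n ∧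
    ∀ z : X ⊕ K, Exceptional f n z → ∀ b, Off f z b →
      ∃ c, Off f z c ∧ b ≠ c ∧ Aligned f z b c ∧ Fails f z b c = ∅ := by
  let _ := plane H
  have hn : order (Pt f) (Ln f) = n := order_eq H hX hK
  have hpp' : ¬ IsPrimePow (order (Pt f) (Ln f)) := by rw [hn]; exact hpp
  have h3' : 3 ≤ order (Pt f) (Ln f) := by rw [hn]; exact h3
  have hiff : ∀ z : X ⊕ K, Exceptional f n z ↔ Exc (Ln.inf : Ln f) (toPt z) := by
    intro z
    refine ⟨fun h => exc_of_exceptional H z hn h, fun h => ?_⟩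
    obtain ⟨b, hb⟩ : ∃ b, Off f z b := by
      obtain ⟨p, hp1, hp2⟩ := exists_off (Ln.inf : Ln f) (toPt z)
      obtain ⟨b, rfl⟩ := exists_cell hp1
      exact ⟨b, (off_iff z b).2 hp2⟩
    obtain ⟨c, h1, h2, h4, h5⟩ := closed_of_exc H z hn h3 h b hb
    exact ⟨b, c, hb, h1, h2, h4, by rw [h5]; simp⟩
  refine ⟨?_, ?_, fun z hz b hb => closed_of_exc H z hn h3 ((hiff z).1 hz) b hb⟩
  · have h1 := exc_off hpp' h3' (Ln.inf : Ln f)
    rw [hn] at h1
    have h2 : {C : Pt f | C ∉ (Ln.inf : Ln f) ∧ Exc (Ln.inf : Ln f) C} =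
        (fun o : X => (Pt.cell o : Pt f)) '' {o : X | Exceptional f n (.inl o)} := by
      ext C
      constructor
      · rintro ⟨h4, h5⟩
        obtain ⟨o, rfl⟩ := exists_cell h4
        exact ⟨o, (hiff (.inl o)).2 h5, rfl⟩
      · rintro ⟨o, h4, rfl⟩
        exact ⟨by simp, (hiff (.inl o)).1 h4⟩
    have hinj : Function.Injective fun o : X => (Pt.cell o : Pt f) := by
      intro u v h; injection h
    rw [← Set.ncard_image_of_injective _ hinj, ← h2]
    rcases h1 with h1 | h1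
    · left; rw [h1]; simp
    · exact Or.inr h1
  · have h1 := exc_on hpp' h3' (Ln.inf : Ln f)
    rw [hn] at h1
    refine le_trans ?_ h1
    have hinj : Function.Injective fun d : K => (Pt.dir d : Pt f) := by
      intro u v h; injection h
    rw [← Set.ncard_image_of_injective _ hinj]
    gcongr
    · exact Set.toFinite _
    · rintro _ ⟨d, hd, rfl⟩
      exact ⟨by simp, (hiff (.inr d)).1 hd⟩

end

end Pool.Agent.H180.Mo
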