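import Mathlib

/-! The projective plane of a complete net (complete set of mutually orthogonal latin squares). -/

set_option autoImplicit false

namespace Pool.Agent.H180.Mo

open Configuration Configuration.ProjectivePlane

/-- `f d x` is the value of the cell `x` in direction `d`. -/
structure IsNet {K X V : Type} (f : K → X → V) : Prop where
  inj : ∀ d e, d ≠ e → ∀ x y, f d x = f d y → f e x = f e y → x = y
  sur : ∀ d e, d ≠ e → ∀ u v, ∃ x, f d x = u ∧ f e x = v
  line : ∀ x y, x ≠ y → ∃ d, f d x = f d y
  three : ∃ d e g : K, d ≠ e ∧ d ≠ g ∧ e ≠ g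
  two : ∀ v : V, ∃ w, w ≠ v
  ne : Nonempty V

section

variable {K X V : Type}

/-- points -/
inductive Pt (f : K → X → V) : Type
  | cell : X → Pt f
  | dir : K → Pt f

/-- lines -/
inductive Ln (f : K → X → V) : Type
  | aff : K → V → Ln f
  | inf : Ln f

variable {f : K → X → V}

/-- incidence -/
def Inc : Pt f → Ln f → Prop
  | .cell x, .aff d v => f d x = v
  | .cell _, .inf => False
  | .dir e, .aff d _ => e = d
  | .dir _, .inf => True

instance : Membership (Pt f) (Ln f) := ⟨fun l p => Inc p l⟩

@[simp] lemma cell_aff {x : X} {d : K} {v : V} :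
    (Pt.cell x : Pt f) ∈ (Ln.aff d v : Ln f) ↔ f d x = v := Iff.rfl
@[simp] lemma cell_inf {x : X} : (Pt.cell x : Pt f) ∈ (Ln.inf : Ln f) ↔ False := Iff.rfl
@[simp] lemma dir_aff {e d : K} {v : V} :
    (Pt.dir e : Pt f) ∈ (Ln.aff d v : Ln f) ↔ e = d := Iff.rfl
@[simp] lemma dir_inf {e : K} : (Pt.dir e : Pt f) ∈ (Ln.inf : Ln f) ↔ True := Iff.rfl

open Classical in
/-- the plane of a net -/
@[instance_reducible] noncomputable def plane (H : IsNet f) : ProjectivePlane (Pt f) (Ln f) where
  exists_point l := by
    obtain ⟨d, e, g, h1, h2, h3⟩ := H.three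
    obtain ⟨v⟩ := H.ne
    cases l with
    | aff k v =>
      by_cases h : d = k
      · exact ⟨.dir e, by simp; rintro rfl; exact h1 h⟩
      · exact ⟨.dir d, by simpa using h⟩
    | inf =>
      obtain ⟨x, -⟩ := H.sur d e h1 v v
      exact ⟨.cell x, by simp⟩
  exists_line p := by
    obtain ⟨d, e, g, h1, h2, h3⟩ := H.three
    obtain ⟨v⟩ := H.ne
    cases p with
    | cell x => exact ⟨.inf, by simp⟩
    | dir k =>
      by_cases h : k = d
      · exact ⟨.aff e v, by simp; rintro rfl; exact h1 h.symm⟩
      · exact ⟨.aff d v, by simpa using h⟩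
  eq_or_eq {p q l m} hp hq hp' hq' := by
    cases p with
    | cell x =>
      cases q with
      | cell y =>
        cases l with
        | aff d v =>
          cases m with
          | aff e w =>
            simp only [cell_aff] at hp hq hp' hq'
            by_cases h : d = e
            · right; subst h; subst hp; subst hp'; rfl
            · left; rw [H.inj d e h x y (hp.trans hq.symm) (hp'.trans hq'.symm)]
          | inf => simp at hp'
        | inf => simp at hp
      | dir b =>
        cases l with
        | aff d v =>
          cases m with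
          | aff e w =>
            simp only [cell_aff, dir_aff] at hp hq hp' hq'
            right; subst hq; subst hq'; subst hp; subst hp'; rfl
          | inf => simp at hp'
        | inf => simp at hp
    | dir a =>
      cases q with
      | cell y =>
        cases l with
        | aff d v =>
          cases m with
          | aff e w =>
            simp only [cell_aff, dir_aff] at hp hq hp' hq'
            right; subst hq; subst hq'; subst hp; subst hp'; rfl
          | inf => simp at hq'
        | inf => simp at hq
      | dir b =>
        cases l with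
        | aff d v =>
          simp only [dir_aff] at hp hq
          left; rw [hp, hq]
        | inf =>
          cases m with
          | aff e w =>
            simp only [dir_aff] at hp' hq'
            left; rw [hp', hq']
          | inf => right; rfl
  mkPoint {l m} _ := match l, m with
    | .aff d v, .aff e w => if h : d = e then .dir d else .cell (Classical.choose (H.sur d e h v w))
    | .aff d _, .inf => .dir d
    | .inf, .aff d _ => .dir d
    | .inf, .inf => .dir (Classical.choose H.three)
  mkPoint_ax {l m} hlm := by
    cases l with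
    | aff d v =>
      cases m with
      | aff e w =>
        by_cases h : d = e
        · simp only [dif_pos h, dir_aff, true_and]; exact h
        · simp only [dif_neg h, cell_aff]
          exact Classical.choose_spec (H.sur d e h v w)
      | inf => simp
    | inf =>
      cases m with
      | aff d v => simp
      | inf => exact absurd rfl hlm
  mkLine {p q} _ := match p, q with
    | .cell x, .cell y => if h : x = y then .inf else
        .aff (Classical.choose (H.line x y h)) (f (Classical.choose (H.line x y h)) x)
    | .cell x, .dir d => .aff d (f d x)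
    | .dir d, .cell x => .aff d (f d x)
    | .dir _, .dir _ => .inf
  mkLine_ax {p q} hpq := by
    cases p with
    | cell x =>
      cases q with
      | cell y =>
        have h : x ≠ y := fun h => hpq (h ▸ rfl)
        simp only [dif_neg h, cell_aff, true_and]
        exact (Classical.choose_spec (H.line x y h)).symm
      | dir d => simp
    | dir d =>
      cases q with
      | cell x => simp
      | dir e => simp
  exists_config := by
    obtain ⟨d, e, g, h1, h2, h3⟩ := H.three
    obtain ⟨v⟩ := H.ne
    obtain ⟨w, hw⟩ := H.two v
    obtain ⟨x, hx, -⟩ := H.sur d e h1 w v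
    refine ⟨.cell x, .dir d, .dir e, .aff g v, .inf, .aff d v, ?_⟩
    simp only [cell_inf, not_false_eq_true, cell_aff, dir_aff, dir_inf, true_and]
    exact ⟨fun h => hw (hx.symm.trans h), h2, h3, h1.symm⟩

/-- points as a sum -/
def ptEquiv (f : K → X → V) : Pt f ≃ X ⊕ K where
  toFun p := match p with
    | .cell x => .inl x
    | .dir d => .inr d
  invFun p := match p with
    | .inl x => .cell x
    | .inr d => .dir d
  left_inv p := by cases p <;> rfl
  right_inv p := by cases p <;> rfl

/-- lines as a sum -/
def lnEquiv (f : K → X → V) : Ln f ≃ (K × V) ⊕ Unit where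
  toFun p := match p with
    | .aff d v => .inl (d, v)
    | .inf => .inr ()
  invFun p := match p with
    | .inl (d, v) => .aff d v
    | .inr _ => .inf
  left_inv p := by cases p <;> rfl
  right_inv p := by rcases p with ⟨_, _⟩ | ⟨⟩ <;> rfl

noncomputable instance [Fintype K] [Fintype X] : Fintype (Pt f) := Fintype.ofEquiv _ (ptEquiv f).symm
noncomputable instance [Fintype K] [Fintype V] : Fintype (Ln f) := Fintype.ofEquiv _ (lnEquiv f).symm

theorem order_eq [Fintype K] [Fintype X] [Fintype V] (H : IsNet f) {n : ℕ}
    (hX : Fintype.card X = n ^ 2) (hK : Fintype.card K = n + 1) :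
    let _ := plane H
    order (Pt f) (Ln f) = n := by
  let _ := plane H
  have h1 := card_points (Pt f) (Ln f)
  have h2 : Fintype.card (Pt f) = n ^ 2 + (n + 1) := by
    rw [Fintype.card_congr (ptEquiv f), Fintype.card_sum, hX, hK]
  rw [h2] at h1
  set q := order (Pt f) (Ln f)
  rcases lt_trichotomy q n with h | h | h
  · nlinarith
  · exact h
  · nlinarith

open Finset Classical in
/-- a net is given by the injectivity, if the numbers are right -/
theorem isNet_of_inj [Fintype K] [Fintype X] [Fintype V] {n : ℕ} (hn : 2 ≤ n)
    (hX : Fintype.card X = n ^ 2) (hK : Fintype.card K = n + 1) (hV : Fintype.card V = n)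
    (inj : ∀ d e, d ≠ e → ∀ x y, f d x = f d y → f e x = f e y → x = y) : IsNet f := by
  have sur : ∀ d e, d ≠ e → ∀ u v, ∃ x, f d x = u ∧ f e x = v := by
    intro d e hde u v
    have h1 : Function.Injective fun x => (f d x, f e x) := by
      intro x y hxy
      exact inj d e hde x y (congrArg Prod.fst hxy) (congrArg Prod.snd hxy)
    have h2 := (Fintype.bijective_iff_injective_and_card _).2
      ⟨h1, by rw [Fintype.card_prod, hX, hV, sq]⟩
    obtain ⟨x, hx⟩ := h2.2 (u, v)
    exact ⟨x, congrArg Prod.fst hx, congrArg Prod.snd hx⟩
  have hK2 : 2 < (univ : Finset K).card := by rw [card_univ]; omega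
  have three : ∃ d e g : K, d ≠ e ∧ d ≠ g ∧ e ≠ g := by
    obtain ⟨a, -, b, -, c, -, h1, h2, h3⟩ := Finset.two_lt_card.1 hK2
    exact ⟨a, b, c, h1, h2, h3⟩
  refine ⟨inj, sur, ?_, three, ?_, ?_⟩
  · intro x y hxy
    have h1 : ∀ d : K, n - 1 ≤ ((univ.filter fun z => f d z = f d x).erase x).card := by
      intro d
      obtain ⟨e, he⟩ : ∃ e : K, d ≠ e := by
        obtain ⟨a, b, g, h1, h2, h3⟩ := three
        by_cases h : d = a
        · exact ⟨b, h ▸ h1⟩
        · exact ⟨a, h⟩
      rw [card_erase_of_mem (by simp)]
      apply Nat.sub_le_sub_right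
      rw [← hV, ← card_univ]
      refine le_trans ?_ (card_image_le (f := f e))
      apply card_le_card
      intro v _
      obtain ⟨z, hz1, hz2⟩ := sur d e he (f d x) v
      exact mem_image.2 ⟨z, by simpa using hz1, hz2⟩
    have h2 : (univ.biUnion fun d => (univ.filter fun z => f d z = f d x).erase x) =
        (univ : Finset X).erase x := by
      apply eq_of_subset_of_card_le
      · intro z hz
        obtain ⟨d, -, hd⟩ := mem_biUnion.1 hz
        exact mem_erase.2 ⟨(mem_erase.1 hd).1, mem_univ _⟩
      · rw [card_erase_of_mem (mem_univ _), card_univ, hX, card_biUnion]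
        · refine le_trans ?_ (sum_le_sum fun d _ => h1 d)
          rw [sum_const, card_univ, hK, smul_eq_mul]
          obtain ⟨m, rfl⟩ : ∃ m, n = m + 1 := ⟨n - 1, by omega⟩
          simp only [Nat.add_sub_cancel]
          have : (m + 1) ^ 2 = (m + 1 + 1) * m + 1 := by ring
          omega
        · intro d _ e _ hde
          rw [Function.onFun, disjoint_left]
          intro z hz hz'
          simp only [mem_erase, mem_filter, mem_univ, true_and] at hz hz'
          exact hz.1 (inj d e hde z x hz.2 hz'.2)
    have h3 : y ∈ (univ : Finset X).erase x := mem_erase.2 ⟨hxy.symm, mem_univ _⟩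
    rw [← h2] at h3
    obtain ⟨d, -, hd⟩ := mem_biUnion.1 h3
    simp only [mem_erase, mem_filter, mem_univ, true_and] at hd
    exact ⟨d, hd.2.symm⟩
  · intro v
    exact Fintype.exists_ne_of_one_lt_card (by omega) v
  · exact Fintype.card_pos_iff.1 (by omega)

end

end Pool.Agent.H180.Mo
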